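import Pool.Agent.Lib.UCU.BadS
import Pool.Agent.Lib.UCU.Sub
import Pool.Agent.Lib.UCU.Tme
import Pool.Agent.Lib.UCU.Dfe

/-!
# UCS / SysH: the series of the totals has no logarithmic singularity, up to a bounded function
-/

set_option autoImplicit false

open Filter Topology Finset

namespace Pool.Agent.Lib.UCS

open Pool.Agent.Lib.UCX
open Pool.Agent.Lib.UCV
open Pool.Agent.Lib.UCU

open Classical in
private theorem acc_sum (S : Sys) [Fintype S.Q] (s : ℝ)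
    (hs : Summable fun l : Acc S => ((val S (l : List S.E) + 1 : ℕ) : ℝ) ^ (-s)) :
    ∑' l : Acc S, ((val S (l : List S.E) + 1 : ℕ) : ℂ) ^ (-(s : ℂ)) =
      ∑ q ∈ univ.filter (fun q => q ∈ S.fin), Dir S q s := by
  let f : (Σ q : {q // q ∈ S.fin}, X S (q : S.Q)) → Acc S :=
    fun p => ⟨(p.2 : List S.E), p.1.1, p.1.2, p.2.2⟩
  have hf : Function.Bijective f := by
    constructor
    · rintro ⟨⟨q, hq⟩, ⟨l, hl⟩⟩ ⟨⟨q', hq'⟩, ⟨l', hl'⟩⟩ h
      have h1 : l = l' := congrArg Subtype.val h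
      subst h1
      have h2 : q = q' := path_end hl hl'
      subst h2
      rfl
    · rintro ⟨l, q, hq, hl⟩
      exact ⟨⟨⟨q, hq⟩, ⟨l, hl⟩⟩, rfl⟩
  have hc : Summable fun l : Acc S => ((val S (l : List S.E) + 1 : ℕ) : ℂ) ^ (-(s : ℂ)) := by
    refine Summable.of_norm (hs.congr fun x => ?_)
    rw [Complex.norm_natCast_cpow_of_pos (Nat.succ_pos _)]
    simp
  have h1 : ∑' l : Acc S, ((val S (l : List S.E) + 1 : ℕ) : ℂ) ^ (-(s : ℂ)) =
      ∑' p : (Σ q : {q // q ∈ S.fin}, X S (q : S.Q)), ((val S (p.2 : List S.E) + 1 : ℕ) : ℂ) ^ (-(s : ℂ)) :=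
    ((Equiv.ofBijective f hf).tsum_eq
      (fun l : Acc S => ((val S (l : List S.E) + 1 : ℕ) : ℂ) ^ (-(s : ℂ)))).symm
  have hc' : Summable fun p : (Σ q : {q // q ∈ S.fin}, X S (q : S.Q)) =>
      ((val S (p.2 : List S.E) + 1 : ℕ) : ℂ) ^ (-(s : ℂ)) :=
    ((Equiv.ofBijective f hf).summable_iff
      (f := fun l : Acc S => ((val S (l : List S.E) + 1 : ℕ) : ℂ) ^ (-(s : ℂ)))).2 hc
  rw [h1, hc'.tsum_sigma, tsum_fintype,
    Finset.sum_subtype (univ.filter (fun q => q ∈ S.fin)) (p := fun q => q ∈ S.fin)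
      (fun x => by simp)]
  rfl

/-- without bad states the values of the accepted paths are summable -/
private theorem val_summ (S : Sys) (em : S.E → ℕ) {Z : Set S.Q} (hR : Ref S Z) (hG : Good S em) (hN : NoBad S em)
    (s : ℝ) (hs : 1 < s) : Summable fun l : Acc S => ((val S (l : List S.E) + 1 : ℕ) : ℝ) ^ (-s) := by
  obtain ⟨C, hC⟩ := em_bound S em hR hN
  have h4 := (hG.summ s hs).mul_left (((2 * C + 1 : ℕ) : ℝ) ^ s)
  refine Summable.of_nonneg_of_le (fun x => Real.rpow_nonneg (Nat.cast_nonneg _) _) (fun x => ?_) h4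
  obtain ⟨q, hq, hx⟩ := x.2
  have h5 := hC q ⟨q, hq, [], Path.nil _⟩ _ hx
  have h6 : tot S em (x : List S.E) + 1 ≤ (2 * C + 1) * (val S (x : List S.E) + 1) := by
    have h7 : Nat.log 2 (val S (x : List S.E) + 1) ≤ val S (x : List S.E) + 1 := Nat.log_le_self _ _
    have h8 : C * (1 + Nat.log 2 (val S (x : List S.E) + 1)) ≤ C * (1 + (val S (x : List S.E) + 1)) :=
      Nat.mul_le_mul_left _ (by omega)
    unfold tot
    nlinarith [Nat.zero_le (C * val S (x : List S.E))]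
  have hA : (0 : ℝ) < ((2 * C + 1 : ℕ) : ℝ) := by exact_mod_cast Nat.succ_pos _
  have hB : (0 : ℝ) < ((val S (x : List S.E) + 1 : ℕ) : ℝ) := by exact_mod_cast Nat.succ_pos _
  have hD : (0 : ℝ) < ((tot S em (x : List S.E) + 1 : ℕ) : ℝ) := by exact_mod_cast Nat.succ_pos _
  have h7 : ((tot S em (x : List S.E) + 1 : ℕ) : ℝ) ≤
      ((2 * C + 1 : ℕ) : ℝ) * ((val S (x : List S.E) + 1 : ℕ) : ℝ) := by
    rw [← Nat.cast_mul]
    exact Nat.cast_le.2 h6
  have h8 := Real.rpow_le_rpow_of_nonpos hD h7 (by linarith : -s ≤ 0)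
  rw [Real.mul_rpow hA.le hB.le] at h8
  calc ((val S (x : List S.E) + 1 : ℕ) : ℝ) ^ (-s)
      = ((2 * C + 1 : ℕ) : ℝ) ^ s * (((2 * C + 1 : ℕ) : ℝ) ^ (-s) *
          ((val S (x : List S.E) + 1 : ℕ) : ℝ) ^ (-s)) := by
        rw [← mul_assoc, ← Real.rpow_add hA, add_neg_cancel, Real.rpow_zero, one_mul]
    _ ≤ _ := mul_le_mul_of_nonneg_left h8 (Real.rpow_nonneg hA.le _)

open Classical in
/-- the series of the accepted paths of a system without bad states -/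
private theorem nobad_series (S : Sys) (em : S.E → ℕ) {Z : Set S.Q} (hR : Ref S Z) (hG : Good S em)
    (hN : NoBad S em) : ∃ D : ℂ → ℂ, AnalyticAt ℂ D 1 ∧ (∀ᶠ s : ℝ in 𝓝[>] (1 : ℝ), D s ≠ 0) ∧
      ∃ K : ℂ → ℂ, AnalyticAt ℂ K 1 ∧ ∀ s : ℝ, 1 < s →
        D s * (((s : ℂ) - 1) * ∑' l : Acc S, ((tot S em (l : List S.E) + 1 : ℕ) : ℂ) ^ (-(s : ℂ))) = K s := by
  have := S.finQ
  have := Fintype.ofFinite S.Q
  obtain ⟨D, hDan', hDne', hall⟩ := tame_dir S (tme S em hR hG hN)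
  have hfin : ∀ q : S.Q, ∃ K : ℂ → ℂ, AnalyticAt ℂ K 1 ∧ ∀ s : ℝ, 1 < s → q ∈ S.fin →
      D s * (((s : ℂ) - 1) * Dir S q s) = K s := by
    intro q
    by_cases hq : q ∈ S.fin
    · obtain ⟨K, hK, hK'⟩ := hall q ⟨q, hq, [], Path.nil _⟩
      exact ⟨K, hK, fun s hs _ => hK' s hs⟩
    · exact ⟨fun _ => 0, analyticAt_const, fun s _ h => absurd h hq⟩
  choose K hK hK' using hfin
  obtain ⟨C, hC⟩ := em_bound S em hR hN
  obtain ⟨h, hh, hh'⟩ := dfe (fun l : Acc S => val S (l : List S.E)) (fun l : Acc S => cst S em (l : List S.E)) C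
    (by
      rintro ⟨l, q, hq, hl⟩
      exact hC q ⟨q, hq, [], Path.nil _⟩ _ hl)
    (fun s hs => val_summ S em hR hG hN s hs)
  refine ⟨D, hDan', hDne', fun s => ∑ q ∈ univ.filter (fun q => q ∈ S.fin), K q s + D s * ((s - 1) * h s), ?_, ?_⟩
  · exact (Finset.analyticAt_fun_sum _ fun q _ => hK q).add
      (hDan'.mul ((analyticAt_id.sub analyticAt_const).mul hh))
  · intro s hs
    have h4 : ∑ q ∈ univ.filter (fun q => q ∈ S.fin), K q s =
        D s * (((s : ℂ) - 1) * ∑' l : Acc S, ((val S (l : List S.E) + 1 : ℕ) : ℂ) ^ (-(s : ℂ))) := by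
      rw [acc_sum S s (val_summ S em hR hG hN s hs), Finset.mul_sum, Finset.mul_sum]
      refine Finset.sum_congr rfl fun q hq => ?_
      exact (hK' q s hs (Finset.mem_filter.1 hq).2).symm
    have h5 : ∑' l : Acc S, ((tot S em (l : List S.E) + 1 : ℕ) : ℂ) ^ (-(s : ℂ)) =
        ∑' l : Acc S, ((val S (l : List S.E) + 1 : ℕ) : ℂ) ^ (-(s : ℂ)) + h s := hh' s hs
    show _ = ∑ q ∈ univ.filter (fun q => q ∈ S.fin), K q s + D s * (((s : ℂ) - 1) * h s)
    rw [h4, h5]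
    ring

open Classical in
theorem sysH (S : Sys) (em : S.E → ℕ) {Z : Set S.Q} (hR : Ref S Z) (hG : Good S em) (P : ℝ → ℝ)
    (hP : Tendsto P (𝓝[>] 1) atTop ∧ Tendsto (fun s : ℝ => (s - 1) * P s) (𝓝[>] 1) (𝓝 0))
    (hv : ∃ Z : ℂ → ℂ, AnalyticAt ℂ Z 1 ∧ ∀ s : ℝ, 1 < s →
      ((s : ℂ) - 1) * ∑' l : Acc S, ((tot S em (l : List S.E) + 1 : ℕ) : ℂ) ^ (-(s : ℂ)) =
        Z s - ((s : ℂ) - 1) * (P s : ℂ)) : False := by
  obtain ⟨B, hB⟩ : ∃ B : Set S.Q, B = {q | Bad S em q} := ⟨_, rfl⟩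
  have hN : NoBad (sub S B) (fun e => em e.1) := by rw [hB]; exact sub_nobad S em
  obtain ⟨D, hD, hDne, K, hK, hK'⟩ := nobad_series (sub S B) (fun e => em e.1) (sub_ref S B Z hR)
    (sub_good S em B hG) hN
  obtain ⟨H, hH, hH'⟩ := bad_series S em hR.b1 hG
  rw [← hB] at hH'
  obtain ⟨f, hf, hfv⟩ := sub_bij S B
  obtain ⟨Z', hZ, hZ'⟩ := hv
  have hsum : ∀ s : ℝ, 1 < s → Summable fun l : Acc S => ((tot S em (l : List S.E) + 1 : ℕ) : ℂ) ^ (-(s : ℂ)) := by
    intro s hs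
    refine Summable.of_norm ((hG.summ s hs).congr fun x => ?_)
    rw [Complex.norm_natCast_cpow_of_pos (Nat.succ_pos _)]
    simp
  have hsplit : ∀ s : ℝ, 1 < s → ∑' l : Acc S, ((tot S em (l : List S.E) + 1 : ℕ) : ℂ) ^ (-(s : ℂ)) =
      ∑' l : {l : List S.E // l ∈ Acc S ∧ Vis S B l}, ((tot S em (l : List S.E) + 1 : ℕ) : ℂ) ^ (-(s : ℂ)) +
        ∑' l : Acc (sub S B), ((tot (sub S B) (fun e => em e.1) (l : List (sub S B).E) + 1 : ℕ) : ℂ) ^ (-(s : ℂ)) := by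
    intro s hs
    obtain ⟨T, hT⟩ : ∃ T : Set (Acc S), T = {l : Acc S | Vis S B (l : List S.E)} := ⟨_, rfl⟩
    have hTm : ∀ l : Acc S, l ∈ T ↔ Vis S B (l : List S.E) := fun l => by rw [hT]; exact Iff.rfl
    have e1 := (Summable.tsum_add_tsum_compl
      (f := fun l : Acc S => ((tot S em (l : List S.E) + 1 : ℕ) : ℂ) ^ (-(s : ℂ))) (s := T)
      ((hsum s hs).subtype _) ((hsum s hs).subtype _)).symm
    rw [e1]
    congr 1
    · let g : T → {l : List S.E // l ∈ Acc S ∧ Vis S B l} := fun l =>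
        ⟨((l : Acc S) : List S.E), (l : Acc S).2, (hTm _).1 l.2⟩
      have hg : Function.Bijective g := by
        constructor
        · intro a b h
          have h' : ((a : Acc S) : List S.E) = ((b : Acc S) : List S.E) :=
            congrArg (fun z : {l : List S.E // l ∈ Acc S ∧ Vis S B l} => (z : List S.E)) h
          exact Subtype.ext (Subtype.ext h')
        · rintro ⟨l, hl, hv⟩
          exact ⟨⟨⟨l, hl⟩, (hTm _).2 hv⟩, rfl⟩
      exact (Equiv.ofBijective g hg).tsum_eq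
        (fun l : {l : List S.E // l ∈ Acc S ∧ Vis S B l} => ((tot S em (l : List S.E) + 1 : ℕ) : ℂ) ^ (-(s : ℂ)))
    · let g : ↥(Tᶜ) → {l : List S.E // l ∈ Acc S ∧ ¬ Vis S B l} := fun l =>
        ⟨((l : Acc S) : List S.E), (l : Acc S).2, fun h => l.2 ((hTm _).2 h)⟩
      have hg : Function.Bijective g := by
        constructor
        · intro a b h
          have h' : ((a : Acc S) : List S.E) = ((b : Acc S) : List S.E) :=
            congrArg (fun z : {l : List S.E // l ∈ Acc S ∧ ¬ Vis S B l} => (z : List S.E)) h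
          exact Subtype.ext (Subtype.ext h')
        · rintro ⟨l, hl, hv⟩
          exact ⟨⟨⟨l, hl⟩, fun h => hv ((hTm _).1 h)⟩, rfl⟩
      have e2 : ∑' l : ↥(Tᶜ), ((tot S em ((l : Acc S) : List S.E) + 1 : ℕ) : ℂ) ^ (-(s : ℂ)) =
          ∑' l : {l : List S.E // l ∈ Acc S ∧ ¬ Vis S B l}, ((tot S em (l : List S.E) + 1 : ℕ) : ℂ) ^ (-(s : ℂ)) :=
        (Equiv.ofBijective g hg).tsum_eq
          (fun l : {l : List S.E // l ∈ Acc S ∧ ¬ Vis S B l} => ((tot S em (l : List S.E) + 1 : ℕ) : ℂ) ^ (-(s : ℂ)))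
      rw [e2, ← (Equiv.ofBijective f hf).tsum_eq
        (fun l : {l : List S.E // l ∈ Acc S ∧ ¬ Vis S B l} => ((tot S em (l : List S.E) + 1 : ℕ) : ℂ) ^ (-(s : ℂ)))]
      refine tsum_congr fun l => ?_
      show ((tot S em ((f l : {l : List S.E // l ∈ Acc S ∧ ¬ Vis S B l}) : List S.E) + 1 : ℕ) : ℂ) ^ (-(s : ℂ)) = _
      rw [hfv l]
      obtain ⟨h1, h2⟩ := sub_tot S em B (l : List (sub S B).E)
      have h3 : tot (sub S B) (fun e => em e.1) (l : List (sub S B).E) =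
          tot S em ((l : List (sub S B).E).map Subtype.val) := by
        unfold tot
        rw [h1, h2]
      rw [h3]
  refine contra P hP.1 hP.2 (fun s => D s * (s - 1))
    (fun s => D s * Z' s - (K s + D s * H s)) ?_ ?_ ?_ ?_
  · exact hD.mul (analyticAt_id.sub analyticAt_const)
  · exact (hD.mul hZ).sub (hK.add (hD.mul hH))
  · filter_upwards [hDne, self_mem_nhdsWithin] with s h1 h2
    refine mul_ne_zero h1 ?_
    have h3 : (1 : ℝ) < s := h2
    rw [sub_ne_zero]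
    exact_mod_cast h3.ne'
  · filter_upwards [self_mem_nhdsWithin] with s h2
    have h3 : (1 : ℝ) < s := h2
    have h4 := hZ' s h3
    rw [hsplit s h3, mul_add] at h4
    have h5 := hK' s h3
    have h6 := hH' s h3
    show (D s * ((s : ℂ) - 1)) * _ = D s * Z' s - (K s + D s * H s)
    rw [← h5, ← h6]
    linear_combination (D s) * h4

end Pool.Agent.Lib.UCS
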