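import Pool.Agent.Lib.UCV.An
import Pool.Agent.Lib.UCX.Prm

/-!
# UCS: sets with a finite harmonic sum, bounded perturbations
-/

set_option autoImplicit false

open Filter Topology Finset

namespace Pool.Agent.Lib.UCS

open Pool.Agent.Lib.UCX
open Pool.Agent.Lib.UCW

/-- the series is real -/
theorem cast_tsum {Y : Type} (v : Y → ℕ) (s : ℝ) :
    ∑' y, ((v y + 1 : ℕ) : ℂ) ^ (-(s : ℂ)) = ((∑' y, ((v y + 1 : ℕ) : ℝ) ^ (-s) : ℝ) : ℂ) := by
  rw [Complex.ofReal_tsum]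
  refine tsum_congr fun y => ?_
  have h := Complex.ofReal_cpow (x := ((v y + 1 : ℕ) : ℝ)) (Nat.cast_nonneg _) (-s)
  rw [h, Complex.ofReal_natCast, Complex.ofReal_neg]

theorem le_one {Y : Type} (v : Y → ℕ) (h : Summable fun y => 1 / ((v y : ℝ) + 1)) {s : ℝ} (hs : 1 < s) :
    (Summable fun y => ((v y + 1 : ℕ) : ℝ) ^ (-s)) ∧
      |∑' y, ((v y + 1 : ℕ) : ℝ) ^ (-s)| ≤ ∑' y, 1 / ((v y : ℝ) + 1) := by
  have h1 : ∀ y, ((v y + 1 : ℕ) : ℝ) ^ (-s) ≤ 1 / ((v y : ℝ) + 1) := fun y => by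
    have h2 : (1 : ℝ) ≤ ((v y + 1 : ℕ) : ℝ) := by exact_mod_cast Nat.succ_le_succ (Nat.zero_le _)
    have h3 : 1 / ((v y : ℝ) + 1) = ((v y + 1 : ℕ) : ℝ) ^ (-(1 : ℝ)) := by
      rw [Real.rpow_neg_one, one_div]
      push_cast
      rfl
    rw [h3]
    exact Real.rpow_le_rpow_of_exponent_le h2 (by linarith)
  have h0 : ∀ y, 0 ≤ ((v y + 1 : ℕ) : ℝ) ^ (-s) := fun y => Real.rpow_nonneg (Nat.cast_nonneg _) _
  have hS : Summable fun y => ((v y + 1 : ℕ) : ℝ) ^ (-s) := Summable.of_nonneg_of_le h0 h1 h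
  refine ⟨hS, ?_⟩
  rw [abs_of_nonneg (tsum_nonneg h0)]
  exact hS.tsum_le_tsum h1 h

theorem pert (E : ℝ → ℝ) (M : ℝ) (hE : ∀ s, 1 < s → |E s| ≤ M) :
    Tendsto (fun s => PS s + E s) (𝓝[>] 1) atTop ∧
      Tendsto (fun s : ℝ => (s - 1) * (PS s + E s)) (𝓝[>] 1) (𝓝 0) := by
  constructor
  · refine tendsto_atTop_add_right_of_le' _ (-M) prime_facts.1 ?_
    filter_upwards [self_mem_nhdsWithin] with s hs
    exact (abs_le.1 (hE s hs)).1
  · have h1 : Tendsto (fun s : ℝ => (s - 1) * E s) (𝓝[>] 1) (𝓝 0) := by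
      refine squeeze_zero_norm' (a := fun s : ℝ => (s - 1) * M) ?_ ?_
      · filter_upwards [self_mem_nhdsWithin] with s hs
        have hs' : (1 : ℝ) < s := hs
        rw [Real.norm_eq_abs, abs_mul, abs_of_pos (sub_pos.2 hs')]
        exact mul_le_mul_of_nonneg_left (hE s hs') (sub_pos.2 hs').le
      · have h2 : Continuous fun s : ℝ => (s - 1) * M := by fun_prop
        exact (h2.tendsto' 1 0 (by simp)).mono_left nhdsWithin_le_nhds
    have h2 := prime_facts.2.add h1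
    rw [add_zero] at h2
    exact h2.congr fun s => by ring

theorem comp_sumH (N : ℕ) (T D : Set ℕ) (hD : Summable fun n : D => 1 / (((n : ℕ) : ℝ) + 1))
    (h1 : ∀ n ∈ T, n ∉ D → Composite n ∧ N < n)
    (h2 : ∀ n, Composite n → N < n → n ∉ D → n ∈ T) : ∃ Z : ℂ → ℂ, AnalyticAt ℂ Z 1 ∧
      ∃ (E : ℝ → ℝ) (M : ℝ), (∀ s, 1 < s → |E s| ≤ M) ∧ ∀ s : ℝ, 1 < s →
        ((s : ℂ) - 1) * DirN T s = Z s - ((s : ℂ) - 1) * ((PS s + E s : ℝ) : ℂ) := by
  obtain ⟨Z, hZ, hs⟩ := comp_sumN N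
  have hD1 : T \ {n | Composite n ∧ N < n} ⊆ D := by
    rintro n ⟨h3, h4⟩
    by_contra h5
    exact h4 (h1 n h3 h5)
  have hD2 : {n | Composite n ∧ N < n} \ T ⊆ D := by
    rintro n ⟨⟨h3, h4⟩, h5⟩
    by_contra h6
    exact h5 (h2 n h3 h4 h6)
  have hsub : ∀ U : Set ℕ, U ⊆ D → Summable fun n : U => 1 / (((n : ℕ) : ℝ) + 1) := fun U hU =>
    (hD.comp_injective (Set.inclusion_injective hU) :)
  refine ⟨Z, hZ, fun s => (∑' n : ↥({n | Composite n ∧ N < n} \ T), (((n : ℕ) + 1 : ℕ) : ℝ) ^ (-s)) -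
    ∑' n : ↥(T \ {n | Composite n ∧ N < n}), (((n : ℕ) + 1 : ℕ) : ℝ) ^ (-s),
    (∑' n : ↥({n | Composite n ∧ N < n} \ T), 1 / (((n : ℕ) : ℝ) + 1)) +
    ∑' n : ↥(T \ {n | Composite n ∧ N < n}), 1 / (((n : ℕ) : ℝ) + 1), ?_, ?_⟩
  · intro s h3
    exact (abs_sub _ _).trans (add_le_add
      (le_one (fun n : ↥({n | Composite n ∧ N < n} \ T) => (n : ℕ)) (hsub _ hD2) h3).2
      (le_one (fun n : ↥(T \ {n | Composite n ∧ N < n}) => (n : ℕ)) (hsub _ hD1) h3).2)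
  · intro s h3
    have hsumm : Summable fun n : ℕ => ((n + 1 : ℕ) : ℂ) ^ (-(s : ℂ)) :=
      summable_cpow (fun n : ℕ => n) (fun _ _ h => h) h3
    have e (U : Set ℕ) : ∑' n : U, (((n : ℕ) + 1 : ℕ) : ℂ) ^ (-(s : ℂ)) =
        ∑' n, Set.indicator U (fun n : ℕ => ((n + 1 : ℕ) : ℂ) ^ (-(s : ℂ))) n :=
      _root_.tsum_subtype U (fun n : ℕ => ((n + 1 : ℕ) : ℂ) ^ (-(s : ℂ)))
    have e4 : DirN T s + ∑' n : ↥({n | Composite n ∧ N < n} \ T), (((n : ℕ) + 1 : ℕ) : ℂ) ^ (-(s : ℂ)) =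
        DirN {n | Composite n ∧ N < n} s +
          ∑' n : ↥(T \ {n | Composite n ∧ N < n}), (((n : ℕ) + 1 : ℕ) : ℂ) ^ (-(s : ℂ)) := by
      unfold DirN
      rw [e, e, e, e, ← Summable.tsum_add (hsumm.indicator _) (hsumm.indicator _),
        ← Summable.tsum_add (hsumm.indicator _) (hsumm.indicator _)]
      refine tsum_congr fun n => ?_
      by_cases ha : n ∈ T <;> by_cases hb : n ∈ {n | Composite n ∧ N < n}
      · rw [Set.indicator_of_mem ha, Set.indicator_of_mem hb, Set.indicator_of_notMem (fun h => h.2 ha),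
          Set.indicator_of_notMem (fun h => h.2 hb)]
      · rw [Set.indicator_of_mem ha, Set.indicator_of_notMem hb, Set.indicator_of_notMem (fun h => h.2 ha),
          Set.indicator_of_mem (show n ∈ T \ {n | Composite n ∧ N < n} from ⟨ha, hb⟩), add_comm]
      · rw [Set.indicator_of_notMem ha, Set.indicator_of_mem hb,
          Set.indicator_of_mem (show n ∈ {n | Composite n ∧ N < n} \ T from ⟨hb, ha⟩),
          Set.indicator_of_notMem (fun h => h.2 hb), add_comm]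
      · rw [Set.indicator_of_notMem ha, Set.indicator_of_notMem hb, Set.indicator_of_notMem (fun h => hb h.1),
          Set.indicator_of_notMem (fun h => ha h.1)]
    have e5 := hs s h3
    rw [cast_tsum (fun n : ↥({n | Composite n ∧ N < n} \ T) => (n : ℕ)) s,
      cast_tsum (fun n : ↥(T \ {n | Composite n ∧ N < n}) => (n : ℕ)) s] at e4
    show _ = Z s - ((s : ℂ) - 1) * ((PS s + ((∑' n : ↥({n | Composite n ∧ N < n} \ T), (((n : ℕ) + 1 : ℕ) : ℝ) ^ (-s)) -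
      ∑' n : ↥(T \ {n | Composite n ∧ N < n}), (((n : ℕ) + 1 : ℕ) : ℝ) ^ (-s)) : ℝ) : ℂ)
    rw [Complex.ofReal_add, Complex.ofReal_sub]
    linear_combination e5 + ((s : ℂ) - 1) * e4

theorem harm_union {D1 D2 : Set ℕ} (h1 : Summable fun n : D1 => 1 / (((n : ℕ) : ℝ) + 1))
    (h2 : Summable fun n : D2 => 1 / (((n : ℕ) : ℝ) + 1)) :
    Summable fun n : ↥(D1 ∪ D2) => 1 / (((n : ℕ) : ℝ) + 1) := by
  have f1 : Summable (Set.indicator D1 fun n : ℕ => 1 / ((n : ℝ) + 1)) := summable_subtype_iff_indicator.1 h1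
  have f2 : Summable (Set.indicator D2 fun n : ℕ => 1 / ((n : ℝ) + 1)) := summable_subtype_iff_indicator.1 h2
  have hpos : ∀ n : ℕ, (0 : ℝ) ≤ 1 / ((n : ℝ) + 1) := fun n => by positivity
  refine (summable_subtype_iff_indicator (f := fun n : ℕ => 1 / ((n : ℝ) + 1)) (s := D1 ∪ D2)).2 ?_
  refine Summable.of_nonneg_of_le (fun n => Set.indicator_nonneg (fun n _ => hpos n) n) (fun n => ?_) (f1.add f2)
  by_cases ha : n ∈ D1
  · rw [Set.indicator_of_mem (show n ∈ D1 ∪ D2 from Or.inl ha)]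
    have := Set.indicator_nonneg (s := D2) (fun n _ => hpos n) n
    rw [Set.indicator_of_mem ha]
    linarith
  · by_cases hb : n ∈ D2
    · rw [Set.indicator_of_mem (show n ∈ D1 ∪ D2 from Or.inr hb), Set.indicator_of_mem hb]
      have := Set.indicator_nonneg (s := D1) (fun n _ => hpos n) n
      linarith
    · rw [Set.indicator_of_notMem (show n ∉ D1 ∪ D2 from fun h => h.elim ha hb)]
      exact add_nonneg (Set.indicator_nonneg (fun n _ => hpos n) n) (Set.indicator_nonneg (fun n _ => hpos n) n)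

/-- the harmonic sum of an arithmetic progression is infinite -/
theorem ap_notH {a κ : ℕ} (h : Summable fun j : ℕ => 1 / (((a + κ * j : ℕ) : ℝ) + 1)) : False := by
  have h1 : Summable fun j : ℕ => (1 : ℝ) / ((j + 1 : ℕ) : ℝ) := by
    refine Summable.of_nonneg_of_le (fun j => by positivity) (fun j => ?_) (h.mul_left (((a + κ + 1 : ℕ) : ℝ)))
    rw [mul_one_div, div_le_div_iff₀ (by positivity) (by positivity), one_mul]
    push_cast
    have ha : (0 : ℝ) ≤ a := Nat.cast_nonneg a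
    have hκ : (0 : ℝ) ≤ κ := Nat.cast_nonneg κ
    have hj : (0 : ℝ) ≤ j := Nat.cast_nonneg j
    nlinarith [mul_nonneg ha hj, mul_nonneg hκ hj]
  exact Real.not_summable_one_div_natCast ((summable_nat_add_iff (f := fun j : ℕ => (1 : ℝ) / (j : ℝ)) 1).1 h1)

end Pool.Agent.Lib.UCS
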