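import Pool.Agent.Lib.UCV.Sdef
import Pool.Agent.Lib.UCW.Asm
import Pool.Agent.Lib.UCU.Rfn
import Pool.Agent.Lib.UCT.Gr
import Pool.Agent.Lib.UCS.Hrm
import Pool.Agent.Lib.UCS.SysH

/-!
# UCS: the harmonic sum over the derivations of the ambiguous words is infinite
-/

set_option autoImplicit false

open Filter Topology Finset

namespace Pool.Agent.Lib.UCS

open Pool.Agent.Lib.UCX (Grammar Sys Prd Item Run Lang Composite DirN PS)
open Pool.Agent.Lib.UCW
open Pool.Agent.Lib.UCV (Acc AmbDer)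
open Pool.Agent.Lib.UCU (tot Good refn refn_code refn_ref)
open Pool.Agent.Lib.UCT (OneKind sysOf emOf sys_b acc_code vals1 Un)

private theorem lder_red {G : Grammar} {d : List (List (Item G))} {n : ℕ} (h : LDer (red G) d n) :
    LDer G d n := ⟨h.1, h.2.1, h.2.2.imp fun _ _ h' => red_step h'⟩

private theorem red_oneKind {G : Grammar} {P : Set G.V} (h : OneKind G P) : OneKind (red G) P :=
  ⟨h.ctx, h.push, fun A f α h' => h.pop A f α h'.1⟩

theorem mainH (G : Grammar) (P : Set G.V) (hk : OneKind G P)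
    (hL : Summable fun n : ↥(symmDiff (Gen G) {n | Composite n}) => 1 / (((n : ℕ) : ℝ) + 1)) (N : ℕ)
    (hsum : Summable fun x : {x : ℕ × List (List (Item G)) // N < x.1 ∧ x.1 ∈ Amb G ∧ LDer G x.2 x.1} =>
      1 / ((x.1.1 : ℝ) + 1)) : False := by
  have hlang : ∀ n, (n ∈ Lang (red G) ↔ n ∈ Gen G) := by
    intro n
    constructor
    · rintro ⟨l, hl⟩
      obtain ⟨d, hd⟩ := tr_exists hl 0
      exact ⟨d, lder_red (lder_of_tr hd)⟩
    · intro h
      rw [gen_eq] at h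
      obtain ⟨l, hl⟩ := h
      exact run_red hl
  have hun : ∀ n, n ∉ Amb G → Un (red G) [some ((red G).start, [])] n := by
    intro n hn l l' h h'
    by_contra hne
    obtain ⟨d, hd⟩ := tr_exists h 0
    obtain ⟨d', hd'⟩ := tr_exists h' 0
    refine hn ⟨d, d', ?_, lder_red (lder_of_tr hd), lder_red (lder_of_tr hd')⟩
    rintro rfl
    exact hne (tr_inj (red_sep G) hd hd')
  have hk' := red_oneKind hk
  obtain ⟨γ, hγ, hγi⟩ := acc_code (red G) P
  obtain ⟨S, em, Zs, hRef, π, hπ, hπi, hπs⟩ : ∃ (S : Sys) (em : S.E → ℕ) (Zs : Set S.Q), Pool.Agent.Lib.UCU.Ref S Zs ∧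
      ∃ (π : List S.E → List (sysOf (red G) P).E),
      (∀ l ∈ Acc S, π l ∈ Acc (sysOf (red G) P) ∧
        tot S em l = tot (sysOf (red G) P) (emOf (red G) P) (π l) ∧
        N < tot (sysOf (red G) P) (emOf (red G) P) (π l)) ∧
      (∀ l ∈ Acc S, ∀ l' ∈ Acc S, π l = π l' → l = l') ∧
      ∀ l ∈ Acc (sysOf (red G) P), N < tot (sysOf (red G) P) (emOf (red G) P) l →
        ∃ l' ∈ Acc S, π l' = l :=
    ⟨refn (sysOf (red G) P) (emOf (red G) P) N, _, _, refn_ref _ _ N (sys_b (red G) P), refn_code _ _ N⟩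
  -- the derivation of an accepted path
  have hex : ∀ l : Acc S, ∃ d, Tr (red G) 0 (γ (π (l : List S.E))) [some ((red G).start, [])]
      (tot (sysOf (red G) P) (emOf (red G) P) (π (l : List S.E))) d := fun l =>
    tr_exists (hγ _ (hπ _ l.2).1) 0
  choose Ψ hΨ using hex
  have hΨi : Function.Injective Ψ := by
    intro l l' h
    have h1 := hΨ l
    have h2 := hΨ l'
    rw [h] at h1
    have h3 := tr_inj (red_sep G) h1 h2
    have h4 := hγi _ (hπ _ l.2).1 _ (hπ _ l'.2).1 h3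
    exact Subtype.ext (hπi _ l.2 _ l'.2 h4)
  obtain ⟨v, hv⟩ : ∃ v : Acc S → ℕ, v = fun l : Acc S => tot S em (l : List S.E) := ⟨_, rfl⟩
  have hvl : ∀ l, v l = tot S em (l : List S.E) := fun l => by rw [hv]
  have hvN : ∀ l, N < v l := fun l => by
    rw [hvl, (hπ _ l.2).2.1]
    exact (hπ _ l.2).2.2
  have hder : ∀ l, LDer G (Ψ l) (v l) := fun l => by
    rw [hvl, (hπ _ l.2).2.1]
    exact lder_red (lder_of_tr (hΨ l))
  obtain ⟨T2, hT2⟩ : ∃ T2 : Set (Acc S), T2 = {l | v l ∈ Amb G} := ⟨_, rfl⟩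
  have hT2m : ∀ l, l ∈ T2 ↔ v l ∈ Amb G := fun l => by rw [hT2]; exact Iff.rfl
  -- accepted paths whose value is ambiguous
  have hs2 : Summable fun l : T2 => 1 / ((v (l : Acc S) : ℝ) + 1) :=
    (hsum.comp_injective (i := fun l : T2 =>
      (⟨(v (l : Acc S), Ψ (l : Acc S)), hvN _, (hT2m _).1 l.2, hder _⟩ :
        {x : ℕ × List (List (Item G)) // N < x.1 ∧ x.1 ∈ Amb G ∧ LDer G x.2 x.1}))
      (fun a b hab => Subtype.ext (hΨi (congrArg (fun z => z.1.2) hab))) :)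
  -- on the others the value is injective
  have hinj : Set.InjOn v T2ᶜ := by
    intro l hl l' hl' h
    by_contra hne
    refine hl ((hT2m l).2 ⟨Ψ l, Ψ l', fun h' => hne (hΨi h'), hder l, ?_⟩)
    rw [h]
    exact hder l'
  have h1c : ∀ s : ℝ, 1 < s → Summable fun l : ↥(T2ᶜ) => ((v (l : Acc S) + 1 : ℕ) : ℝ) ^ (-s) := by
    intro s hs
    have h2 : Summable fun n : ℕ => ((n : ℕ) : ℝ) ^ (-s) := Real.summable_nat_rpow.2 (by linarith)
    have h3 := (summable_nat_add_iff 1).2 h2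
    exact (h3.comp_injective (i := fun l : ↥(T2ᶜ) => v (l : Acc S))
      (fun a b hab => Subtype.ext (hinj a.2 b.2 hab)) :)
  have h1t : ∀ s : ℝ, 1 < s → Summable fun l : T2 => ((v (l : Acc S) + 1 : ℕ) : ℝ) ^ (-s) := fun s hs =>
    (le_one (fun l : T2 => v (l : Acc S)) hs2 hs).1
  have h1v : ∀ s : ℝ, 1 < s → Summable fun l : Acc S => ((v l + 1 : ℕ) : ℝ) ^ (-s) := fun s hs =>
    summable_subtype_and_compl.1 ⟨h1t s hs, h1c s hs⟩
  have h1 : ∀ s : ℝ, 1 < s → Summable fun l : Acc S => ((tot S em (l : List S.E) + 1 : ℕ) : ℝ) ^ (-s) := by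
    intro s hs
    have h2 := h1v s hs
    simp only [hvl] at h2
    exact h2
  have hgood : Good S em := by
    refine ⟨h1, ?_⟩
    intro a κ hκ
    by_contra hcon
    push Not at hcon
    choose L hL1 L' hL2 h3 h4 h5 using hcon
    have hmem : ∀ j, (⟨L j, hL1 j⟩ : Acc S) ∈ T2 := by
      intro j
      refine (hT2m _).2 ⟨Ψ ⟨L j, hL1 j⟩, Ψ ⟨L' j, hL2 j⟩, ?_, hder _, ?_⟩
      · intro h
        exact h5 j (congrArg Subtype.val (hΨi h))
      · have h6 : v ⟨L j, hL1 j⟩ = v ⟨L' j, hL2 j⟩ := by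
          rw [hvl, hvl]
          exact (h3 j).trans (h4 j).symm
        rw [h6]
        exact hder _
    have h6 := hs2.comp_injective (i := fun j : ℕ => (⟨⟨L j, hL1 j⟩, hmem j⟩ : T2)) (by
      intro i j hij
      have h7 : L i = L j := congrArg (fun z : T2 => ((z : Acc S) : List S.E)) hij
      have h8 : a + κ * i = a + κ * j := by rw [← h3 i, ← h3 j, h7]
      exact Nat.eq_of_mul_eq_mul_left hκ (by omega))
    refine ap_notH (a := a) (κ := κ) (h6.congr fun j => ?_)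
    show 1 / ((v ⟨L j, hL1 j⟩ : ℝ) + 1) = _
    rw [hvl]
    show 1 / ((tot S em (L j) : ℝ) + 1) = _
    rw [h3 j]
  -- the series
  have hD := harm_union hL (D2 := {n | n ∈ Amb G ∧ N < n}) (by
    have hch : ∀ n : ↥{n | n ∈ Amb G ∧ N < n}, ∃ d, LDer G d (n : ℕ) := by
      rintro ⟨n, ⟨d, d', -, hd, -⟩, -⟩
      exact ⟨d, hd⟩
    choose d hd using hch
    exact (hsum.comp_injective (i := fun n : ↥{n | n ∈ Amb G ∧ N < n} =>
      (⟨((n : ℕ), d n), n.2.2, n.2.1, hd n⟩ :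
        {x : ℕ × List (List (Item G)) // N < x.1 ∧ x.1 ∈ Amb G ∧ LDer G x.2 x.1}))
      (fun a b hab => Subtype.ext (congrArg (fun z => z.1.1) hab)) :))
  obtain ⟨Z, hZ, E, M, hE, hZ'⟩ := comp_sumH N (v '' T2ᶜ) _ hD (by
    rintro n ⟨l, hl, rfl⟩ hn
    refine ⟨?_, hvN l⟩
    by_contra hc
    refine hn (Or.inl (Or.inl ⟨⟨_, hder l⟩, hc⟩))) (by
    intro n hc hN hn
    have hA : n ∉ Amb G := fun h => hn (Or.inr ⟨h, hN⟩)
    have hG : n ∈ Gen G := by
      by_contra h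
      exact hn (Or.inl (Or.inr ⟨hc, h⟩))
    obtain ⟨l, hl, hln⟩ := vals1 (red G) P hk' (hun n hA) ((hlang n).2 hG)
    obtain ⟨l', hl', hl''⟩ := hπs l hl (by rw [hln]; exact hN)
    refine ⟨⟨l', hl'⟩, ?_, ?_⟩
    · intro h
      apply hA
      have h2 := (hT2m _).1 h
      rw [hvl, (hπ _ hl').2.1, hl'', hln] at h2
      exact h2
    · rw [hvl, (hπ _ hl').2.1, hl'', hln])
  refine sysH S em hRef hgood (fun s => PS s + (E s - ∑' l : T2, ((v (l : Acc S) + 1 : ℕ) : ℝ) ^ (-s)))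
    (pert (fun s => E s - ∑' l : T2, ((v (l : Acc S) + 1 : ℕ) : ℝ) ^ (-s))
      (M + ∑' l : T2, 1 / ((v (l : Acc S) : ℝ) + 1)) fun s hs =>
      (abs_sub _ _).trans (add_le_add (hE s hs) (le_one (fun l : T2 => v (l : Acc S)) hs2 hs).2)) ⟨Z, hZ, ?_⟩
  intro s hs
  have hc : ∀ (Y : Type) (u : Y → ℕ), (Summable fun l : Y => ((u l + 1 : ℕ) : ℝ) ^ (-s)) →
      Summable fun l : Y => ((u l + 1 : ℕ) : ℂ) ^ (-(s : ℂ)) := by
    intro Y u h
    refine Summable.of_norm (h.congr fun x => ?_)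
    rw [Complex.norm_natCast_cpow_of_pos (Nat.succ_pos _)]
    simp
  have e1 : ∑' l : Acc S, ((v l + 1 : ℕ) : ℂ) ^ (-(s : ℂ)) =
      ∑' l : T2, ((v (l : Acc S) + 1 : ℕ) : ℂ) ^ (-(s : ℂ)) +
        ∑' l : ↥(T2ᶜ), ((v (l : Acc S) + 1 : ℕ) : ℂ) ^ (-(s : ℂ)) :=
    (Summable.tsum_add_tsum_compl (f := fun l : Acc S => ((v l + 1 : ℕ) : ℂ) ^ (-(s : ℂ)))
      (hc _ _ (h1t s hs)) (hc _ _ (h1c s hs))).symm
  have e2 : DirN (v '' T2ᶜ) s = ∑' l : ↥(T2ᶜ), ((v (l : Acc S) + 1 : ℕ) : ℂ) ^ (-(s : ℂ)) :=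
    tsum_image (fun n : ℕ => ((n + 1 : ℕ) : ℂ) ^ (-(s : ℂ))) hinj
  have e3 := hZ' s hs
  rw [e2] at e3
  simp only [← hvl]
  rw [e1, cast_tsum (fun l : T2 => v (l : Acc S)) s]
  rw [Complex.ofReal_add] at e3
  rw [Complex.ofReal_add, Complex.ofReal_sub]
  linear_combination e3

theorem mainR (G : Grammar) (P : Set G.V) (hk : OneKind G P)
    (hL : Summable fun n : ↥(symmDiff (Gen G) {n | Composite n}) => 1 / (((n : ℕ) : ℝ) + 1)) (N : ℕ) :
    ¬ Summable fun x : AmbDer G N => 1 / ((x.1.1 : ℝ) + 1) :=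
  fun hsum => mainH G P hk hL N hsum

theorem mainI (G : Grammar) (P : Set G.V) (hk : OneKind G P)
    (hL : Summable fun n : ↥(symmDiff (Gen G) {n | Composite n}) => 1 / (((n : ℕ) : ℝ) + 1)) :
    (Amb G).Infinite := by
  by_contra h
  obtain ⟨N, hN⟩ := (Set.not_infinite.1 h).bddAbove
  have : IsEmpty (AmbDer G N) := ⟨fun x => absurd (hN x.2.2.1) (Nat.not_le.2 x.2.1)⟩
  exact mainR G P hk hL N summable_empty

end Pool.Agent.Lib.UCS
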